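import Pool.Agent.Run7.h727.RDI.Iface

/-!
# Project RDI (helper727): the pieces C and C2
-/

set_option autoImplicit false

open scoped Pointwise

namespace Pool.Agent.Run7.h957.RDI

open Pool.Agent.Run7.h727.RDI

variable {G : Type} [Group G]

theorem wl_spec (A : Set G) (hA : Subgroup.closure A = ⊤) (g : G) :
    ∃ l : List G, (∀ a ∈ l, a ∈ A ∨ a⁻¹ ∈ A) ∧ (l.length : ℝ) = wl A g ∧ l.prod = g := by
  have hne : {n : ℕ | ∃ l : List G, (∀ a ∈ l, a ∈ A ∨ a⁻¹ ∈ A) ∧ l.length = n ∧
      l.prod = g}.Nonempty := by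
    have h0 : g ∈ (Subgroup.closure A).toSubmonoid := by
      rw [hA]
      trivial
    rw [Subgroup.closure_toSubmonoid] at h0
    obtain ⟨l, hl, hg⟩ := Submonoid.exists_list_of_mem_closure h0
    exact ⟨l.length, l, hl, rfl, hg⟩
  obtain ⟨l, h1, h2, h3⟩ := Nat.sInf_mem hne
  refine ⟨l, h1, ?_, h3⟩
  unfold wl
  rw [h2]

theorem wl_le (A : Set G) (l : List G) (hl : ∀ a ∈ l, a ∈ A ∨ a⁻¹ ∈ A) :
    wl A l.prod ≤ l.length := by
  unfold wl
  refine Nat.cast_le.mpr (Nat.sInf_le ?_)
  exact ⟨l, hl, rfl, rfl⟩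

theorem wl_nonneg (A : Set G) (g : G) : 0 ≤ wl A g := Nat.cast_nonneg _

theorem wl_inv_le (A : Set G) (hA : Subgroup.closure A = ⊤) (g : G) : wl A g⁻¹ ≤ wl A g := by
  obtain ⟨l, h1, h2, h3⟩ := wl_spec A hA g
  have h4 := wl_le A (l.map (fun x => x⁻¹)).reverse (by
    intro a ha
    rw [List.mem_reverse, List.mem_map] at ha
    obtain ⟨b, hb, rfl⟩ := ha
    rcases h1 b hb with h | h
    · right
      rwa [inv_inv]
    · left
      exact h)
  rw [← List.prod_inv_reverse, h3, List.length_reverse, List.length_map, h2] at h4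
  exact h4

theorem wl_isLength (A : Set G) (hA : Subgroup.closure A = ⊤) : IsLength (wl A) := by
  refine ⟨wl_nonneg A, ?_, ?_, ?_⟩
  · have h := wl_le A [] (by simp)
    rw [List.prod_nil, List.length_nil, Nat.cast_zero] at h
    exact le_antisymm h (wl_nonneg A 1)
  · intro g
    refine le_antisymm (wl_inv_le A hA g) ?_
    have h := wl_inv_le A hA g⁻¹
    rwa [inv_inv] at h
  · intro g h
    obtain ⟨l, h1, h2, h3⟩ := wl_spec A hA g
    obtain ⟨l', h1', h2', h3'⟩ := wl_spec A hA h
    have h4 := wl_le A (l ++ l') (by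
      intro a ha
      rcases List.mem_append.mp ha with h5 | h5
      · exact h1 a h5
      · exact h1' a h5)
    rw [List.prod_append, h3, h3', List.length_append, Nat.cast_add, h2, h2'] at h4
    exact h4

theorem prod_mem_pow [DecidableEq G] (B : Finset G) (l : List G) (hl : ∀ a ∈ l, a ∈ B) :
    l.prod ∈ B ^ l.length := by
  induction l with
  | nil =>
    rw [List.prod_nil, List.length_nil, pow_zero]
    exact Finset.mem_one.mpr rfl
  | cons a l ih =>
    rw [List.prod_cons, List.length_cons, pow_succ']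
    exact Finset.mul_mem_mul (hl a List.mem_cons_self)
      (ih fun b hb => hl b (List.mem_cons_of_mem _ hb))

theorem t_C : S_C := by
  classical
  intro G _ A hfin hA
  refine ⟨wl_isLength A hA, ?_⟩
  obtain ⟨B, hB⟩ : ∃ B : Finset G, B = insert 1 (hfin.toFinset ∪ hfin.toFinset⁻¹) := ⟨_, rfl⟩
  have h1B : (1 : G) ∈ B := by
    rw [hB]
    exact Finset.mem_insert_self _ _
  have hmem : ∀ a : G, (a ∈ A ∨ a⁻¹ ∈ A) → a ∈ B := by
    intro a ha
    rw [hB, Finset.mem_insert, Finset.mem_union, Finset.mem_inv']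
    right
    rw [Set.Finite.mem_toFinset, Set.Finite.mem_toFinset]
    exact ha
  have hcard : (1 : ℝ) ≤ B.card := by
    exact_mod_cast Finset.card_pos.mpr ⟨1, h1B⟩
  refine ⟨Polynomial.C (Real.log B.card) * Polynomial.X, ?_⟩
  intro r _
  rw [Polynomial.eval_mul, Polynomial.eval_C, Polynomial.eval_X]
  rcases lt_or_ge r 0 with hr | hr
  · have hem : {g : G | wl A g ≤ r} = ∅ := by
      ext g
      simp only [Set.mem_ofPred_eq, Set.mem_empty_iff_false, iff_false, not_le]
      exact lt_of_lt_of_le hr (wl_nonneg A g)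
    rw [hem]
    refine ⟨Set.finite_empty, ?_⟩
    rw [Set.ncard_empty, Nat.cast_zero]
    exact (Real.exp_pos _).le
  · have hsub : {g : G | wl A g ≤ r} ⊆ ((B ^ ⌊r⌋₊ : Finset G) : Set G) := by
      intro g hg
      obtain ⟨l, h1, h2, h3⟩ := wl_spec A hA g
      have h4 : l.length ≤ ⌊r⌋₊ := Nat.le_floor (by rw [h2]; exact hg)
      have h5 := prod_mem_pow B l (fun a ha => hmem a (h1 a ha))
      rw [h3] at h5
      exact Finset.mem_coe.mpr (Finset.pow_subset_pow_right h1B h4 h5)
    refine ⟨(Finset.finite_toSet _).subset hsub, ?_⟩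
    have h6 : ({g : G | wl A g ≤ r}.ncard : ℝ) ≤ (B.card : ℝ) ^ ⌊r⌋₊ := by
      have h7 := Set.ncard_le_ncard hsub (Finset.finite_toSet _)
      rw [Set.ncard_coe_finset] at h7
      exact_mod_cast h7.trans Finset.card_pow_le
    refine h6.trans ?_
    have hpos : (0 : ℝ) < B.card := lt_of_lt_of_le one_pos hcard
    calc (B.card : ℝ) ^ ⌊r⌋₊ = Real.exp (Real.log B.card * ⌊r⌋₊) := by
          rw [mul_comm, Real.exp_nat_mul, Real.exp_log hpos]
      _ ≤ Real.exp (Real.log B.card * r) :=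
          Real.exp_le_exp.mpr (mul_le_mul_of_nonneg_left (Nat.floor_le hr) (Real.log_nonneg hcard))

theorem t_C2 : S_C2 := by
  classical
  intro G _ A hfin hA L hL
  have hsum : ∀ a ∈ A, L a ≤ 1 + ∑ b ∈ hfin.toFinset, L b := by
    intro a ha
    have h1 := Finset.single_le_sum (f := L) (fun b _ => hL.nonneg b)
      (hfin.mem_toFinset.mpr ha)
    linarith
  refine ⟨1 + ∑ b ∈ hfin.toFinset, L b, ?_, ?_⟩
  · have h1 : 0 ≤ ∑ b ∈ hfin.toFinset, L b := Finset.sum_nonneg fun b _ => hL.nonneg b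
    linarith
  · intro g
    obtain ⟨l, h1, h2, h3⟩ := wl_spec A hA g
    rw [← h2, ← h3]
    clear h2 h3
    induction l with
    | nil =>
      rw [List.prod_nil, hL.one, List.length_nil, Nat.cast_zero, mul_zero]
    | cons a l ih =>
      rw [List.prod_cons, List.length_cons, Nat.cast_add, Nat.cast_one]
      have h4 := ih (fun b hb => h1 b (List.mem_cons_of_mem _ hb))
      have h5 : L a ≤ 1 + ∑ b ∈ hfin.toFinset, L b := by
        rcases h1 a List.mem_cons_self with h | h
        · exact hsum a h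
        · rw [← hL.inv a]
          exact hsum _ h
      calc L (a * l.prod) ≤ L a + L l.prod := hL.mul _ _
        _ ≤ (1 + ∑ b ∈ hfin.toFinset, L b) + (1 + ∑ b ∈ hfin.toFinset, L b) * l.length :=
          add_le_add h5 h4
        _ = _ := by ring

end Pool.Agent.Run7.h957.RDI
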